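import Pool.Agent.W635.Smm

/-!
# `𝔡 = 𝔲 = ℵ₁` implies `𝔰_mm = ℵ₁`

ZFC proves that there is a maximal ideal independent family of cardinality `ℵ₁` if the dominating
number and the ultrafilter number are `ℵ₁`.

Proof.  Let `p` be a nonprincipal ultrafilter whose dual ideal is generated by the sets `V_ξ`,
`ξ < ω₁`.  By recursion we find infinite sets `A_α`, `α < ω₁`, outside `p` such that `A_α` is almost
disjoint from `V_ξ` and `A_ξ` for all `ξ < α` (if both halves of an infinite set were in `p`, then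
`p` would not be a filter).  Let `p_α` be a copy of `p` on `A_α`, and let `𝒲` be the ideal of all
sets which belong to no `p_α`.  A member of `p` belongs to `p_α` for all but countably many `α`.  So
`𝒲` is contained in the dual ideal of `p`, and every `X ∈ 𝒲` is contained in some `V_ξ`, which
belongs to `p_α` for at most countably many `α`.  By `𝔡 = ℵ₁` the ideal of the subsets of `V_ξ`
which do not belong to `p_α` for `α ≤ ξ` is generated by `ℵ₁` sets, hence `𝒲` is generated by sets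
`W_α`, `α < ω₁`, each of which is listed twice.  Then the sets `A_α ∪ W_α` are a maximal ideal
independent family: `A_β ∪ W_β` belongs to `p_α` only for `β = α`, and if `X` is not in `𝒲`, then
`X` belongs to some `p_α`, so that `(A_α ∪ W_α) \ X` is in `𝒲` and is covered by another member.
-/

set_option autoImplicit false

namespace Pool.Agent.Results.MP_5eed22_lc.DUAlephOne

open Set Cardinal Filter Pool.Agent.W635.Smm

/-- **ZFC proves that `𝔡 = 𝔲 = ℵ₁` implies `𝔰_mm = ℵ₁`.**  Here `𝔰_mm` is the least cardinality of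
an infinite maximal ideal independent family of infinite subsets of `ℕ`. -/
theorem result (hd : dNumber = ℵ₁) (hu : uNumber = ℵ₁) : smm = ℵ₁ := by
  classical
  have h01 : (ℵ₁ : Cardinal.{0}) ≠ 0 := (Cardinal.aleph_pos 1).ne'
  have hℵ : (ℵ₀ : Cardinal.{0}) ≤ ℵ₁ := Cardinal.aleph0_le_aleph 1
  obtain ⟨D, hDdom, hDcard⟩ := csInf_mem (s := {κ | ∃ D : Set (ℕ → ℕ),
      (∀ f : ℕ → ℕ, ∃ g ∈ D, ∀ᶠ n in atTop, f n ≤ g n) ∧ #D = κ}) (by
    by_contra hne
    rw [not_nonempty_iff_eq_empty] at hne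
    apply h01
    rw [← hd, dNumber, hne]
    exact Cardinal.sInf_empty)
  rw [show sInf {κ | ∃ D : Set (ℕ → ℕ),
      (∀ f : ℕ → ℕ, ∃ g ∈ D, ∀ᶠ n in atTop, f n ≤ g n) ∧ #D = κ} = ℵ₁ from hd] at hDcard
  obtain ⟨p, hp, B, hB, hBcard⟩ := csInf_mem (s := {κ | ∃ p : Ultrafilter ℕ,
      (∀ n : ℕ, {n} ∉ p) ∧ ∃ B : Set (Set ℕ), IsBase p B ∧ #B = κ}) (by
    by_contra hne
    rw [not_nonempty_iff_eq_empty] at hne
    apply h01
    rw [← hu, uNumber, hne]
    exact Cardinal.sInf_empty)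
  rw [show sInf {κ | ∃ p : Ultrafilter ℕ,
      (∀ n : ℕ, {n} ∉ p) ∧ ∃ B : Set (Set ℕ), IsBase p B ∧ #B = κ} = ℵ₁ from hu] at hBcard
  -- the index set
  have hWcard : #((ℵ₁ : Cardinal.{0}).ord.ToType) = ℵ₁ := Cardinal.mk_ord_toType _
  have hW : ∀ a : (ℵ₁ : Cardinal.{0}).ord.ToType, (Iio a).Countable := by
    intro a
    rw [← Cardinal.le_aleph0_iff_set_countable]
    have h1 : #(Iio a) < ℵ₁ := Cardinal.mk_Iio_ord_toType a
    exact Order.lt_succ_iff.1 (h1.trans_eq Cardinal.succ_aleph0.symm)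
  have hW2 : ∀ s : Set (ℵ₁ : Cardinal.{0}).ord.ToType, s.Countable → ∃ b, ∀ a ∈ s, a < b := by
    intro s hs
    by_contra hcon
    push Not at hcon
    have h1 : (Set.univ : Set (ℵ₁ : Cardinal.{0}).ord.ToType).Countable := by
      refine (hs.biUnion (t := fun a _ => Iic a) ?_).mono ?_
      · intro a _
        rw [← Iio_insert]
        exact (hW a).insert a
      · intro b _
        obtain ⟨a, ha, hba⟩ := hcon b
        exact mem_biUnion ha hba
    rw [← Cardinal.le_aleph0_iff_set_countable, Cardinal.mk_univ, hWcard,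
      ← Cardinal.succ_aleph0] at h1
    exact absurd h1 (not_le.2 (Order.lt_succ _))
  have hcard : #((ℵ₁ : Cardinal.{0}).ord.ToType × (ℵ₁ : Cardinal.{0}).ord.ToType ×
      (ℵ₁ : Cardinal.{0}).ord.ToType × Bool) = #((ℵ₁ : Cardinal.{0}).ord.ToType) := by
    simp only [Cardinal.mk_prod, Cardinal.lift_id, hWcard, Cardinal.lift_aleph, Cardinal.mk_bool]
    have h2 : (ℵ₁ : Cardinal.{0}) * 2 = ℵ₁ :=
      Cardinal.mul_eq_left hℵ ((Cardinal.nat_lt_aleph0 2).le.trans hℵ) two_ne_zero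
    rw [h2, Cardinal.mul_eq_self hℵ, Cardinal.mul_eq_self hℵ]
  -- the sets `V`
  have hBF : #((ℵ₁ : Cardinal.{0}).ord.ToType) = #(B × Finset ℕ) := by
    rw [Cardinal.mk_prod, Cardinal.lift_id, Cardinal.lift_id, hBcard, hWcard, Cardinal.mk_finset_of_infinite,
      Cardinal.mk_nat, Cardinal.mul_eq_left hℵ hℵ Cardinal.aleph0_ne_zero]
  obtain ⟨φ⟩ := Cardinal.eq.1 hBF
  have hDN : #((ℵ₁ : Cardinal.{0}).ord.ToType) = #(D × ℕ) := by
    rw [Cardinal.mk_prod, Cardinal.lift_id, Cardinal.lift_id, hDcard, hWcard,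
      Cardinal.mk_nat, Cardinal.mul_eq_left hℵ hℵ Cardinal.aleph0_ne_zero]
  obtain ⟨χ⟩ := Cardinal.eq.1 hDN
  obtain ⟨I, hI, hIcard⟩ := exists_maximal hW hW2 hcard hp
    (fun a => ((φ a).1 : Set ℕ)ᶜ ∪ ((φ a).2 : Set ℕ)) (by
      intro a
      apply union_notMem
      · rw [Ultrafilter.compl_notMem_iff]
        exact hB.1 _ (φ a).1.2
      · exact finite_notMem hp (Finset.finite_toSet _)) (by
      intro X hX
      obtain ⟨b, hb, hfin⟩ := hB.2 Xᶜ (Ultrafilter.compl_mem_iff_notMem.2 hX)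
      refine ⟨φ.symm (⟨b, hb⟩, hfin.toFinset), ?_⟩
      intro x hx
      show x ∈ ((φ _).1 : Set ℕ)ᶜ ∪ ((φ _).2 : Set ℕ)
      rw [Equiv.apply_symm_apply]
      by_cases hxb : x ∈ b
      · right
        rw [Finset.mem_coe, Set.Finite.mem_toFinset]
        exact ⟨hxb, fun h => h hx⟩
      · left
        exact hxb)
    (fun a n => (χ a).1.1 n + (χ a).2) (by
      intro f
      obtain ⟨g, hg, hfg⟩ := hDdom f
      obtain ⟨N, hN⟩ := eventually_atTop.1 hfg
      refine ⟨χ.symm (⟨g, hg⟩, (Finset.range N).sum f), ?_⟩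
      intro n
      show f n ≤ (χ _).1.1 n + (χ _).2
      rw [Equiv.apply_symm_apply]
      rcases le_or_gt N n with h | h
      · exact (hN n h).trans (Nat.le_add_right _ _)
      · have h1 : f n ≤ (Finset.range N).sum f :=
          Finset.single_le_sum (f := f) (fun _ _ => Nat.zero_le _) (Finset.mem_range.2 h)
        exact h1.trans (Nat.le_add_left _ _))
  rw [hWcard] at hIcard
  have hIinf : I.Infinite := by
    rw [← Set.infinite_coe_iff, Cardinal.infinite_iff, hIcard]
    exact hℵ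
  apply le_antisymm
  · exact csInf_le' ⟨I, hIinf, hI, hIcard⟩
  · refine le_csInf ⟨ℵ₁, I, hIinf, hI, hIcard⟩ ?_
    rintro κ ⟨J, hJinf, hJ, rfl⟩
    rw [← Cardinal.succ_aleph0, Order.succ_le_iff]
    by_contra hcon
    rw [not_lt, Cardinal.le_aleph0_iff_set_countable] at hcon
    exact not_countable hJinf hcon hJ

end Pool.Agent.Results.MP_5eed22_lc.DUAlephOne
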